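import Pool.Agent.Lib.MP_dc8965_an.AT.N4

open Finset
open scoped LaurentPolynomial

namespace DC8965.AT

/-- (An1) `T*T`: with `f_n = c_n`, `‖f g‖_2² = ∑_(m,n) conj(c_m) c_n ⟨T^m g, T^n g⟩`, so it is at most
`‖g‖_2² ∑_d ‖∑_n conj(c_n) c_(n+d)‖`; `D` bounds this sum. -/
theorem Op_two {f : A} {R : ℕ} (hf : Sup f (-R) R) {D : ℝ}
    (hD : ∑ d ∈ Icc (-(2 * R : ℤ)) (2 * R), ‖∑ n ∈ Icc (-(R : ℤ)) R,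
      (starRingEnd ℂ) (f.coeff n) * f.coeff (n + d)‖ ≤ D) : Op 2 f (Real.sqrt D) := by
  sorry

/-- (An2) Marcinkiewicz between `2` and `∞`: at height `t > 0` split `g = g₁ + g₂`,
`g₁ = g 1_(‖g‖ ≤ t / (2 l))`, so `‖f g₁‖_∞ ≤ t / 2` and
`#{‖f g‖ > t} ≤ #{‖f g₂‖ > t/2} ≤ 4 s² t⁻² ∑_(‖g_n‖ > t/(2l)) ‖g_n‖²`;
integrate `p t^(p-1) dt`:
`S p (f g) ≤ 4 s² p ∑ ‖g_n‖² ∫_0^(2 l ‖g_n‖) t^(p-3) dt = 4 s² p (2 l)^(p-2) / (p-2) S p g`. -/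
theorem Marc {p : ℝ} (hp : 2 < p) {f : A} {s l : ℝ} (hs : 0 ≤ s) (hl : 0 < l)
    (h2 : Op 2 f s) (h1 : Nr 1 f ≤ l) :
    Op p f ((4 * s ^ 2 * p * (2 * l) ^ (p - 2) / (p - 2)) ^ (1 / p)) := by
  sorry

end DC8965.AT
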