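import Pool.Agent.Lib.MP_dc8965_an.AT.N4
import Pool.Agent.Lib.MP_dc8965_an.BT.Basic

open Finset Polynomial
open scoped LaurentPolynomial

namespace DC8965.AT

/-- `U(1/T)` for a polynomial `U` -/
noncomputable def rv (U : ℂ[X]) : A := LaurentPolynomial.invert (Polynomial.toLaurent U)

/-- (In1) approximate inverses in `ℓ^1` of a polynomial without zeros on the unit circle (Lemma W of paper 311):
`V = c ∏ (X - w)`; for `|w| < 1`: `(T⁻¹ - w) (T ∑_(k<n) (w T)^k) = 1 - (w T)^n`; for `|w| > 1`: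
`(T⁻¹ - w) (-w⁻¹ ∑_(k<n) (w T)^(-k)) = 1 - (w T)^(-n)`; multiply the approximate inverses
(`V R = 1 - x`, `V' R' = 1 - y` give `V V' R R' = 1 - x - y + x y`). -/
theorem approx_inv (V : ℂ[X]) (h0 : V ≠ 0) (hV : ∀ z : ℂ, ‖z‖ = 1 → V.eval z ≠ 0) :
    ∃ C : ℝ, 1 ≤ C ∧ ∀ τ : ℝ, 0 < τ → ∃ J : A, Nr 1 J ≤ C ∧ Nr 1 (rv V * J - 1) ≤ τ := by
  sorry

/-- (In2) `H = ∑_(i<n) (-1)^i (T^m/3)^(i+1)` -/
theorem approx_inv_three (m : ℕ) {τ : ℝ} (hτ : 0 < τ) :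
    ∃ H : A, Nr 1 H ≤ 1 / 2 ∧ Nr 1 ((1 + 3 • LaurentPolynomial.T (-(m : ℤ))) * H - 1) ≤ τ := by
  sorry

/-- (In3) moving the roots off the circle: `V = c(sX)` (`+ η` if `c = 0`), `s` near `1` outside a finite set. -/
theorem off_circle (c : ℂ[X]) {δ : ℝ} (hδ : 0 < δ) :
    ∃ V : ℂ[X], V ≠ 0 ∧ (∀ z : ℂ, ‖z‖ = 1 → V.eval z ≠ 0) ∧ V.natDegree ≤ c.natDegree ∧
      ∑ n ∈ range (c.natDegree + 1), ‖V.coeff n - c.coeff n‖ ≤ δ := by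
  sorry

end DC8965.AT
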