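import Pool.Agent.Lib.MP_dc8965_an.AT.N4

open Finset
open scoped LaurentPolynomial

namespace DC8965.AT

/-- the factor `1 + 3 T^(-m)` -/
noncomputable def cl (m : ℕ) : A := 1 + (3 : ℂ) • LaurentPolynomial.T (-(m : ℤ))

/-- (K1) the ring identity. `y k = (Jψ V)^(k-1) φ`, `z₀ = ∑_(1≤k≤K) y k v k`,
`(V - P) z₀ + ψ φ = V y_K v_K + ∑_(1≤k<K) (V y_k - ψ y_(k+1)) v_k - ∑_(1≤k≤K) y_k (P v_k - ψ v_(k-1))`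
(`v 0 = 1`; telescoping). -/
theorem key_identity (K : ℕ) (hK : 1 ≤ K) (V P ψ φ : A) (y v : ℕ → A) (hv : v 0 = 1) (hy : y 1 = φ) :
    (V - P) * (∑ k ∈ Icc 1 K, y k * v k) + ψ * φ
      = V * y K * v K + ∑ k ∈ Ico 1 K, (V * y k - ψ * y (k + 1)) * v k
        - ∑ k ∈ Icc 1 K, y k * (P * v k - ψ * v (k - 1)) := by
  sorry

/-- (K2) the geometric sum: `Y = ∑_(l≤K) (P G)^l G e` satisfies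
`e - (W - P) Y = (P G)^(K+1) e - (W G - 1) ∑_(l≤K) (P G)^l e`. -/
theorem key_geom (K : ℕ) (W P G e : A) :
    e - (W - P) * (∑ l ∈ range (K + 1), (P * G) ^ l * G * e)
      = (P * G) ^ (K + 1) * e - (W * G - 1) * ∑ l ∈ range (K + 1), (P * G) ^ l * e := by
  sorry

/-- (K3) descending the levels: if `Nr p (P v_k - ψ v_(k-1)) ≤ δ` for `1 ≤ k ≤ K` then for `l ≤ K`
`Nr p (P^l u v_K - ψ^l u v_(K-l)) ≤ l (max Q N)^(l-1) Nr 1 u δ`: induction on `l`. -/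
theorem key_descend {p : ℝ} (hp : 2 < p) {K : ℕ} {P ψ u : A} {v : ℕ → A} {Q N δ : ℝ} (hQ : 1 ≤ Q)
    (hN : 1 ≤ N) (hδ : 0 ≤ δ) (hP : Op p P Q) (hψ : Nr 1 ψ ≤ N)
    (hr : ∀ k, 1 ≤ k → k ≤ K → Nr p (P * v k - ψ * v (k - 1)) ≤ δ) :
    ∀ l, l ≤ K → Nr p (P ^ l * u * v K - ψ ^ l * u * v (K - l)) ≤ l * (Q * N) ^ l * Nr 1 u * δ := by
  sorry

/-- (K4) the key lemma, for one `α` (everything reversed, `P = -X`). With `G = J H`, `W = V (1 + 3 T^(-m))`,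
`y k = (Jψ V)^(k-1) φ`, `z₀ = ∑ y k v k`, `e = (V - P) z₀ + ψ φ`, `Y = ∑_(l≤K) (P G)^l G e`, `z = z₀ - Y`:
* `(W - P) z = (V - P) z₀ + 3 T^(-m) V z₀ - (W - P) Y = -ψ φ + 3 T^(-m) V z₀ + res`, `res = e - (W - P) Y`;
* `Nr 1 (W G - 1) ≤ 3 τ` (`W G - 1 = (V J - 1) b + (b - 1)`, `b = cl m H`), `Nr 2 e ≤ C Λ` (K1),
  `Nr 2 res ≤ ((N s)^(K+1) + 3 τ (K+1)) C Λ` (K2, `N s ≤ 1`);
* `w = z - (1 - H^K) φ v_1`: `∑_(k≥2) y k v k` is `≤ C η`; in `Y` the parts of `e` containing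
  `V y_k - ψ y_(k+1) = (1 - ψ Jψ) V y_k` and `P v_k - ψ v_(k-1)` are `≤ C Q^K (τ + δ)`; the part `V y_K v_K`: by (K3)
  `(P G)^l G V y_K v_K = G^(l+1) ψ^l V y_K v_(K-l) + …`; `l ≤ K-2`: `≤ C η`; `l = K-1`:
  `G^K ψ^(K-1) V y_K = H^K (J V)^K (ψ Jψ)^(K-1) φ = H^K φ + O(τ)`; `l = K`:
  `G^(K+1) ψ^K V y_K = H^(K+1) J (J V)^K (ψ Jψ)^(K-1) ψ φ`, `Nr 1 ≤ 2^(-K-1) N^3 + O(τ)`. -/
theorem key {p : ℝ} (hp : 2 < p) (K : ℕ) (hK : 1 ≤ K) {N : ℝ} (hN : 1 ≤ N) :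
    ∃ C : ℝ, 1 ≤ C ∧ ∀ (V J H P ψ φ Jψ : A) (v : ℕ → A) (m : ℕ) (η Q s δ τ Λ : ℝ),
      v 0 = 1 → Nr 1 V ≤ N → Nr 1 J ≤ N → Nr 1 H ≤ 1 / 2 → Nr 1 ψ ≤ N → Nr 1 φ ≤ N →
      Nr 1 Jψ ≤ N → Nr 1 (V * J - 1) ≤ τ → Nr 1 (ψ * Jψ - 1) ≤ τ → Nr 1 (cl m * H - 1) ≤ τ →
      0 ≤ τ → τ ≤ 1 → 1 ≤ Q → Op p P Q → 0 ≤ s → Op 2 P s → C * s ≤ 1 →
      Nr p (v 1) ≤ 1 → 0 ≤ η → η ≤ 1 → (∀ k, 2 ≤ k → k ≤ K → Nr p (v k) ≤ η) →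
      1 ≤ Λ → (∀ k, k ≤ K → Nr 2 (v k) ≤ Λ) → 0 ≤ δ →
      (∀ k, 1 ≤ k → k ≤ K → Nr p (P * v k - ψ * v (k - 1)) ≤ δ) →
      ∃ z res w : A,
        (V * cl m - P) * z = -(ψ * φ) +
          (3 : ℂ) • (LaurentPolynomial.T (-(m : ℤ)) * V *
            ∑ k ∈ Icc 1 K, (Jψ * V) ^ (k - 1) * φ * v k) + res ∧
        Nr 2 res ≤ C * ((C * s) ^ (K + 1) + τ) * Λ ∧
        z = (1 - H ^ K) * φ * v 1 + w ∧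
        Nr p w ≤ (1 / 2) ^ (K + 1) * N ^ 3 + C * (η + Q ^ K * (δ + τ)) := by
  sorry

end DC8965.AT
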