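import Pool.Agent.Lib.MP_dc8965_an.AT.Gad
import Pool.Agent.Lib.MP_dc8965_an.AT.Inv
import Pool.Agent.Lib.MP_dc8965_an.AT.Key

open Finset Polynomial
open scoped LaurentPolynomial

namespace DC8965.AT

open DC8965.BT

/-- (Co1) the part of `f` with exponents `≥ 0`, as a polynomial -/
noncomputable def pos (f : A) : ℂ[X] :=
  ∑ n ∈ f.coeff.support.filter (fun n => 0 ≤ n), Polynomial.monomial n.toNat (f.coeff n)

theorem pos_coeff (f : A) (n : ℕ) : (pos f).coeff n = f.coeff n := by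
  sorry

/-- (Co2) `T_U` on the positive part is multiplication by `U(1/T)`: `rv U` only moves to the left. -/
theorem Tp_pos (U : ℂ[X]) (f : A) (j : ℕ) :
    Tp U (fun n => (pos f).coeff n) j = (rv U * f).coeff j := by
  sorry

/-- (Co3) every element supported on exponents `≤ 0` is `rv U` -/
theorem exists_rv {f : A} {R : ℤ} (hf : Sup f (-R) 0) : ∃ U : ℂ[X], rv U = f ∧
    ∀ n : ℕ, U.coeff n = f.coeff (-n) := by
  sorry

theorem Sn_eq_S {r : ℝ} (hr : 0 < r) (U : ℂ[X]) : S r (rv U) = Sn r U := by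
  sorry

theorem S_pos_le {r : ℝ} (hr : 0 < r) (f : A) : Sn r (pos f) ≤ S r f := by
  sorry

/-- (Co) the core. Order of choices: `V` (`off_circle`, `N₁(V - c)` tiny), `C_V` and `J` (`approx_inv`);
`ψ'_α` (`off_circle`, tiny), `Jψ_α`; `N` = a bound of all `Nr 1`; `K` with `r (1/2)^(K+1) N^3` tiny; `C` from `key`;
`η` tiny; `gadget` with `C₁ ≥ r N C …`; `τ` tiny (against `Q^K`, `Λ`); `J, Jψ`, then the window `T` and `N₀ > I`, degrees; `family`;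
`P = ∑ rv ψ'_α β_α` (`P v_(α,k) - rv ψ'_α v_(α,k-1)` = own error + cross terms); `m` larger than all supports; `H`
(`approx_inv_three`); `z_α` from `key`; `x_i = a_i + ∑_(ι α = i) z_α`, `g_i = pos x_i`, `rv U = rv V cl m - P`.
`W = 3 X^m V`. On `j ≥ 0`: `(rv U x_i)_j = (T_V a_i)_j - ∑ (T_(ψ'_α) φ_α)_j + res`, since `3 T^(-m) V (…)` and `P a_i` live on
`j < 0`; `T_V a_i - ∑ T_(ψ') φ = T_(V-c) a_i - ∑ T_(ψ'-ψ) φ` is tiny in `ℓ²`. -/
theorem core {p q : ℝ} (hpq : p.HolderConjugate q) (hp : 2 < p) {k r : ℕ} (c : ℂ[X])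
    (a : Fin k → ℂ[X]) (ι : Fin r → Fin k) (ψ φ : Fin r → ℂ[X])
    (h : ∀ i j, Tp c (fun n => (a i).coeff n) j =
      ∑ α, if ι α = i then Tp (ψ α) (fun n => (φ α).coeff n) j else 0)
    {ε δ : ℝ} (hε : 0 < ε) (hδ : 0 < δ) (I : ℕ) :
    ∃ (U W : ℂ[X]) (g : Fin k → ℂ[X]), (∀ n < I, W.coeff n = 0) ∧
      Sn q W ≤ 9 * (Sn q c + 1) ∧
      (Sn q (U - c - W)) ^ (1 / q) ≤ (∑ α, Sn q (ψ α)) ^ (1 / q) + ε ∧
      (∀ i, (Sn p (g i - a i)) ^ (1 / p) ≤ 2 * (∑ α, Sn p (φ α)) ^ (1 / p) + ε) ∧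
      ∀ i, Sle 2 (Tp U (fun n => (g i).coeff n)) δ := by
  sorry

end DC8965.AT
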