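import Mathlib

/-!
# MP_dc8965_an, the range `2 < p < ∞` (AT = above two): two-sided finite sequences

Two-sided finitely supported sequences are Laurent polynomials; the product is the convolution.
`S r f = ∑ ‖f_n‖^r`, `Nr r f = (S r f)^(1/r)`, `Op r f B`: multiplication by `f` has norm at most `B`
for `Nr r`, `dil M f = f(T^M)`, `Sup f a b`: the support of `f` lies in `[a, b]`.
-/

open Finset

open scoped LaurentPolynomial

namespace DC8965.AT

/-- two-sided finitely supported sequences, with the convolution product -/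
abbrev A : Type := LaurentPolynomial ℂ

/-- `∑ ‖f_n‖^r` -/
noncomputable def S (r : ℝ) (f : A) : ℝ := ∑ n ∈ f.coeff.support, ‖f.coeff n‖ ^ r

/-- the `ℓ^r` norm -/
noncomputable def Nr (r : ℝ) (f : A) : ℝ := (S r f) ^ (1 / r)

/-- multiplication by `f` has norm at most `B` on `ℓ^r` -/
def Op (r : ℝ) (f : A) (B : ℝ) : Prop := ∀ g : A, Nr r (f * g) ≤ B * Nr r g

/-- `f(T^M)` -/
noncomputable def dil (M : ℤ) : A →+* A :=
  AddMonoidAlgebra.mapDomainRingHom ℂ (AddMonoidHom.mulLeft M)

/-- the support of `f` lies in `[a, b]` -/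
def Sup (f : A) (a b : ℤ) : Prop := ∀ n : ℤ, (n < a ∨ b < n) → f.coeff n = 0

end DC8965.AT
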