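import Pool.Agent.Lib.MP_dc8965_an.AT.Mode

open Finset
open scoped LaurentPolynomial

namespace DC8965.AT

/-- `n` modes at separated scales: `a = ∑ χ_i`, `E k = e_k(y_1, …, y_n)` -/
structure Modes (p q : ℝ) (n : ℕ) (a : A) (E : ℕ → A) (R : ℤ) (Q s δ Λ : ℝ) : Prop where
  hR : 0 < R
  supa : Sup a (-R) (-1)
  E0 : E 0 = 1
  Ebig : ∀ k, n < k → E k = 0
  supE : ∀ k, 1 ≤ k → Sup (E k) 1 R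
  Sa : S q a ≤ n
  SE : ∀ k, S p (E k) ≤ n.choose k
  err : ∀ k, Nr p (a * E (k + 1) - ((n : ℂ) - k) • E k) ≤ 8 ^ n * δ
  small : Nr p a ≤ n * δ
  opp : Op p a (n * Q)
  op2 : Op 2 a (n * s)
  two : ∀ k, Nr 2 (E k) ≤ 2 ^ n * Λ ^ k

/-- (Ga1) Adding one mode: `M > 4 R`, `χ' = dil M χ`, `y' = dil M y`, `a' = a + χ'`,
`E' 0 = 1`, `E' (k+1) = E (k+1) + y' E k`, `R' = M R₀ + R` (`R₀` the `R` of the mode; `χ' , y'` live on multiples of `M`).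
`S q a' = S q a + S q χ'` and `S p (E' (k+1)) = S p (E (k+1)) + S p (y' E k)` (disjoint supports: `[-R,R]` against
`[M - R, ∞)`), `S p (y' E k) = S p y S p (E k)` (`S_mul_dil`).
Error, `ρ = χ y - 1`, `Err k = a E (k+1) - (n-k) E k`: for `k ≥ 1`
`a' E'(k+1) - (n+1-k) E' k = Err k + y' Err (k-1) + χ' E (k+1) + ρ' E k`; for `k = 0` the second term is `y' a`.
All `Nr p` of the products are products of norms (`Nr_mul_dil`), `Nr p (E k) ≤ (n.choose k)^(1/p) ≤ 2^n`.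
`8^(n+1) ≥ 2 * 8^n + 2 * 2^n + n`. (`k > n`: everything is `0` or small; check `k = n, n+1` too: the identity is the same.) -/
theorem Modes.succ {p q : ℝ} (hpq : p.HolderConjugate q) (hp : 2 < p) {χ y : A} {R₀ : ℤ}
    {Q s δ Λ : ℝ} (h : Mode p q χ y R₀ Q s δ Λ) (hQ : 1 ≤ Q) (hs : 0 < s) (hδ : 0 < δ)
    (hδ1 : δ ≤ 1) (hΛ : 1 ≤ Λ) {n : ℕ} {a : A} {E : ℕ → A} {R : ℤ}
    (hn : Modes p q n a E R Q s δ Λ) :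
    ∃ (a' : A) (E' : ℕ → A) (R' : ℤ), Modes p q (n + 1) a' E' R' Q s δ Λ := by
  sorry

theorem Modes.zero {p q : ℝ} (hp : 2 < p) (hq : 0 < q) {Q s δ Λ : ℝ} (hQ : 1 ≤ Q) (hs : 0 < s)
    (hδ : 0 < δ) (hΛ : 1 ≤ Λ) :
    Modes p q 0 0 (fun k => if k = 0 then 1 else 0) 1 Q s δ Λ := by
  sorry

/-- a gadget with `K` levels -/
structure Gadget (p q : ℝ) (K : ℕ) (β : A) (v : ℕ → A) (R : ℤ) (θ Q s δ Λ : ℝ) : Prop where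
  hR : 0 < R
  supβ : Sup β (-R) (-1)
  v0 : v 0 = 1
  supv : ∀ k, 1 ≤ k → Sup (v k) 1 R
  Sβ : S q β ≤ 1
  Sv1 : S p (v 1) ≤ 1
  Sv : ∀ k, 2 ≤ k → k ≤ K → Nr p (v k) ≤ θ
  err : ∀ k, k < K → Nr p (β * v (k + 1) - v k) ≤ δ
  small : Nr p β ≤ δ
  opp : Op p β Q
  op2 : Op 2 β s
  two : ∀ k, k ≤ K → Nr 2 (v k) ≤ Λ

/-- (Ga2) normalisation: `β = n^(-1/q) a`, `v k = c_k E k`, `c_k = n^(k/q) (n-k)!/n!` (`k ≤ n`).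
`c_(k+1) n^(-1/q) (n-k) = c_k`. `S p (v k) ≤ c_k^p n.choose k = (n^k (n-k)!/n!)^(p-1)/k!` (`p/q = p-1`), which is
`1` for `k = 1` and tends to `1/k!` for `n → ∞`, so `≤ 3/4` for all `2 ≤ k ≤ K` if `n` is large: `θ = (3/4)^(1/p)`.
The constant `C` depends on `n, K, p` only. -/
theorem group {p q : ℝ} (hpq : p.HolderConjugate q) (hp : 2 < p) (K : ℕ) (hK : 1 ≤ K) :
    ∃ (θ C : ℝ), 0 < θ ∧ θ < 1 ∧ 1 ≤ C ∧ ∀ {χ y : A} {R₀ : ℤ} {Q s δ Λ : ℝ},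
      Mode p q χ y R₀ Q s δ Λ → 1 ≤ Q → 0 < s → 0 < δ → δ ≤ 1 → 1 ≤ Λ →
      ∃ (β : A) (v : ℕ → A) (R : ℤ), Gadget p q K β v R θ (C * Q) (C * s) (C * δ) (C * Λ ^ K) := by
  sorry

/-- (Ga3) product of two gadgets at separated scales: `M > 2 R₁`, `β = β₁ dil M β₂`, `v k = v₁ k dil M (v₂ k)`.
`β v(k+1) - v k = (β₁ v₁(k+1) - v₁ k) dil M (β₂ v₂(k+1)) + v₁ k dil M (β₂ v₂(k+1) - v₂ k)`, norms are products;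
`Nr p (v₁ k) ≤ 1`, `Nr p (β₂ v₂ (k+1)) ≤ 1 + δ₂ ≤ 2`. (Support of `β₁ v₁ (k+1) - v₁ k` in `[-R₁, R₁]`.) -/
theorem Gadget.mul {p q : ℝ} (hpq : p.HolderConjugate q) (hp : 2 < p) {K : ℕ} {β₁ β₂ : A}
    {v₁ v₂ : ℕ → A} {R₁ R₂ : ℤ} {θ₁ θ₂ Q₁ Q₂ s₁ s₂ δ₁ δ₂ Λ₁ Λ₂ : ℝ}
    (h₁ : Gadget p q K β₁ v₁ R₁ θ₁ Q₁ s₁ δ₁ Λ₁) (h₂ : Gadget p q K β₂ v₂ R₂ θ₂ Q₂ s₂ δ₂ Λ₂)
    (hθ₁ : 0 < θ₁) (hθ₁' : θ₁ ≤ 1) (hθ₂ : 0 < θ₂) (hθ₂' : θ₂ ≤ 1) (hQ₁ : 1 ≤ Q₁) (hQ₂ : 1 ≤ Q₂)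
    (hs₁ : 0 < s₁) (hs₂ : 0 < s₂) (hδ₁ : 0 < δ₁) (hδ₂ : 0 < δ₂) (hδ₂' : δ₂ ≤ 1)
    (hΛ₁ : 1 ≤ Λ₁) (hΛ₂ : 1 ≤ Λ₂) :
    ∃ (β : A) (v : ℕ → A) (R : ℤ), Gadget p q K β v R (θ₁ * θ₂) (Q₁ * Q₂) (s₁ * s₂)
      (2 * δ₁ + δ₂) (Λ₁ * Λ₂) := by
  sorry

/-- (Ga4) the gadget: `group`, then the `j`-th power (`θ^j ≤ η`), then `exists_mode` with `m = j K`, `ε` small. -/
theorem gadget {p q : ℝ} (hpq : p.HolderConjugate q) (hp : 2 < p) (K : ℕ) (hK : 1 ≤ K)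
    {η : ℝ} (hη : 0 < η) (C₁ : ℝ) (hC₁ : 1 ≤ C₁) {ε : ℝ} (hε : 0 < ε) :
    ∃ (β : A) (v : ℕ → A) (R : ℤ) (Q s δ Λ : ℝ), Gadget p q K β v R η Q s δ Λ ∧ 1 ≤ Q ∧ 0 < s ∧
      0 < δ ∧ 1 ≤ Λ ∧ (C₁ * Q) ^ K * δ ≤ ε ∧ C₁ * s ≤ ε ∧ (C₁ * s) ^ (K + 1) * Λ ≤ ε := by
  sorry

/-- several copies of a gadget, as far out and as separated as we like -/
structure Family (p q : ℝ) (K r : ℕ) (β : Fin r → A) (v : Fin r → ℕ → A) (T N₀ : ℤ)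
    (η Q s δ Λ : ℝ) : Prop where
  supβ : ∀ a, ∃ R, Sup (β a) (-R) (-N₀)
  v0 : ∀ a, v a 0 = 1
  supv : ∀ a k, 1 ≤ k → ∃ R, Sup (v a k) N₀ R
  Sβ : ∀ u : Fin r → A, (∀ a, Sup (u a) (-T) T) → S q (∑ a, u a * β a) ≤ ∑ a, S q (u a)
  Sv1 : ∀ u : Fin r → A, (∀ a, Sup (u a) (-T) T) → S p (∑ a, u a * v a 1) ≤ ∑ a, S p (u a)
  Sv : ∀ a k, 2 ≤ k → k ≤ K → Nr p (v a k) ≤ η
  Nv1 : ∀ a, Nr p (v a 1) ≤ 1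
  err : ∀ a k, k < K → Nr p (β a * v a (k + 1) - v a k) ≤ δ
  cross : ∀ a b, a ≠ b → ∀ k, 1 ≤ k → k ≤ K → Nr p (β b * v a k) ≤ δ
  opp : ∀ a, Op p (β a) Q
  op2 : ∀ a, Op 2 (β a) s
  two : ∀ a k, k ≤ K → Nr 2 (v a k) ≤ Λ

/-- (Ga5) `β_a = dil M_a β`, `v_a k = dil M_a (v k)`, `M_a = B^(a+1)` with `B > 2 T + N₀ + 4 R + 4`.
`S_mul_dil` (window `T`) and disjoint supports (the supports of the `u_a β_a` lie in the disjoint intervals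
`[-M_a R - T, -M_a + T]`); cross terms: `Nr_mul_dil` after `dil`: if `M_b = M_a M'` then `β_b v_a k = dil M_a (dil M' β * v k)`. -/
theorem family {p q : ℝ} (hpq : p.HolderConjugate q) (hp : 2 < p) {K : ℕ} {β : A}
    {v : ℕ → A} {R : ℤ} {η Q s δ Λ : ℝ} (h : Gadget p q K β v R η Q s δ Λ) (hη : η ≤ 1)
    (hQ : 0 ≤ Q) (hs : 0 ≤ s) (r : ℕ) (T N₀ : ℤ) :
    ∃ (β' : Fin r → A) (v' : Fin r → ℕ → A), Family p q K r β' v' T N₀ η Q s δ Λ := by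
  sorry

end DC8965.AT
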