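import Pool.Agent.Lib.MP_dc8965_an.AT.An
import Pool.Agent.Lib.MP_dc8965_an.BT.B1

open Finset
open scoped LaurentPolynomial

namespace DC8965.AT

/-- a mode: `χ` (on negative exponents) and its dual vector `y` -/
structure Mode (p q : ℝ) (χ y : A) (R : ℤ) (Q s δ Λ : ℝ) : Prop where
  hR : 0 < R
  supχ : Sup χ (-R) (-1)
  supy : Sup y 1 R
  Sχ : S q χ ≤ 1
  Sy : S p y ≤ 1
  err : Nr p (χ * y - 1) ≤ δ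
  small : Nr p χ ≤ δ
  opp : Op p χ Q
  op2 : Op 2 χ s
  two : Nr 2 y ≤ Λ

/-- (Mo1) The chirp pair of length `L`: `χ = L^(-1/q) ∑_(l<L) conj(ε_l) T^(-(l+1))`,
`y = L^(-1/p) ∑_(l<L) ε_l T^(l+1)`, `ε_l = exp(iπ l²/L)` (`BT.ep`), `C_d = BT.Cc L d`.
BT.B1: `‖C_d‖ ≤ d'` and `2 d' ‖C_d‖ ≤ L` with `d' = min d (L-d)`.
* `χ y = 1 + L⁻¹ ∑_(d≠0) C_d T^d` (`C_(-d) = conj C_d`); `‖C_d‖² ≤ L/2`, so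
  `S p (χ y - 1) ≤ 2 L L^(-p) L^(p/2)`, i.e. `Nr p (χ y - 1) ≤ 2 L^(1/p - 1/2)`.
* `Nr p χ = L^(1/p - 1/q) ≤ L^(1/p - 1/2)`, `Nr 2 y = L^(1/2 - 1/p)`.
* `∑_d ‖C_d‖ ≤ L + 2 ∑_(1≤d<L) L/(2 d') ≤ L (3 + 2 log L)`; by `Op_two`
  `Op 2 χ s` with `s² = L^(1-2/q) (3 + 2 log L)`, i.e. `s = L^(-(1/2-1/p)) (3 + 2 log L)^(1/2)`.
* `Nr 1 χ = L^(1-1/q) = L^(1/p)`; by `Marc` the bound of `Op p χ` is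
  `(c_p L^(1-2/q) (3+2 log L) L^((p-2)/p))^(1/p) = (c_p (3+2 log L))^(1/p)` (`1 - 2/q + 1 - 2/p = 0`). -/
theorem chirp {p q : ℝ} (hpq : p.HolderConjugate q) (hp : 2 < p) :
    ∃ c : ℝ, 1 ≤ c ∧ ∀ L : ℕ, 2 ≤ L → ∃ χ y : A,
      Mode p q χ y L (c * (1 + Real.log L)) (c * (1 + Real.log L) * (L : ℝ) ^ (-(1 / 2 - 1 / p)))
        (c * (L : ℝ) ^ (-(1 / 2 - 1 / p))) (c * (L : ℝ) ^ (1 / 2 - 1 / p)) := by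
  sorry

/-- (Mo2) the form used later: all powers of the logarithm are beaten -/
theorem exists_mode {p q : ℝ} (hpq : p.HolderConjugate q) (hp : 2 < p) (m : ℕ) {ε : ℝ}
    (hε : 0 < ε) : ∃ (χ y : A) (R : ℤ) (Q s δ Λ : ℝ), Mode p q χ y R Q s δ Λ ∧ 1 ≤ Q ∧ 0 < s ∧
      0 < δ ∧ 1 ≤ Λ ∧ s ≤ ε ∧ Q ^ m * δ ≤ ε ∧ (max 1 (s * Λ)) ^ m * s ≤ ε := by
  sorry

end DC8965.AT
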