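import Pool.Agent.Lib.MP_dc8965_an.AT.Defs

open Finset
open scoped LaurentPolynomial

namespace DC8965.AT

lemma S_nonneg (r : ℝ) (f : A) : 0 ≤ S r f := Finset.sum_nonneg fun _ _ => by positivity

lemma Nr_nonneg (r : ℝ) (f : A) : 0 ≤ Nr r f := Real.rpow_nonneg (S_nonneg r f) _

/-- (N1a) `S` may be computed over any finite set containing the support. -/
theorem S_eq_sum {r : ℝ} (hr : 0 < r) (f : A) (s : Finset ℤ) (hs : ∀ n, f.coeff n ≠ 0 → n ∈ s) :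
    S r f = ∑ n ∈ s, ‖f.coeff n‖ ^ r := by
  sorry

/-- (N1b) -/
theorem Nr_rpow {r : ℝ} (hr : 0 < r) (f : A) : Nr r f ^ r = S r f := by
  sorry

/-- (N1c) -/
theorem Nr_le_iff {r : ℝ} (hr : 0 < r) (f : A) {B : ℝ} (hB : 0 ≤ B) :
    Nr r f ≤ B ↔ S r f ≤ B ^ r := by
  sorry

/-- (N1d) Minkowski: `Real.Lp_add_le` over a finite set containing both supports. -/
theorem Nr_add {r : ℝ} (hr : 1 ≤ r) (f g : A) : Nr r (f + g) ≤ Nr r f + Nr r g := by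
  sorry

/-- (N1e) -/
theorem Nr_smul {r : ℝ} (hr : 0 < r) (c : ℂ) (f : A) : Nr r (c • f) = ‖c‖ * Nr r f := by
  sorry

theorem Nr_neg {r : ℝ} (hr : 0 < r) (f : A) : Nr r (-f) = Nr r f := by
  sorry

theorem Nr_sub {r : ℝ} (hr : 1 ≤ r) (f g : A) : Nr r (f - g) ≤ Nr r f + Nr r g := by
  sorry

theorem Nr_zero {r : ℝ} (hr : 0 < r) : Nr r 0 = 0 := by
  sorry

theorem Nr_one {r : ℝ} (hr : 0 < r) : Nr r 1 = 1 := by
  sorry

/-- (N1f) -/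
theorem Nr_sum_le {r : ℝ} (hr : 1 ≤ r) {ι : Type*} (s : Finset ι) (f : ι → A) :
    Nr r (∑ i ∈ s, f i) ≤ ∑ i ∈ s, Nr r (f i) := by
  sorry

end DC8965.AT
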