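import Pool.Agent.Lib.MP_dc8965_an.AT.N1

open Finset
open scoped LaurentPolynomial

namespace DC8965.AT

/-- (N2a) a monomial only translates: `(T^n f)_k = f_(k-n)`. -/
theorem Nr_T_mul {r : ℝ} (n : ℤ) (f : A) : Nr r (LaurentPolynomial.T n * f) = Nr r f := by
  sorry

/-- (N2b) Young: `f = ∑ f_n T^n`, `Nr_sum_le`, `Nr_smul`, `Nr_T_mul`; `Nr 1 f = ∑ ‖f_n‖`. -/
theorem Nr_mul_le {r : ℝ} (hr : 1 ≤ r) (f g : A) : Nr r (f * g) ≤ Nr 1 f * Nr r g := by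
  sorry

/-- (N2c) the `ℓ^p` norm decreases in `p`: with `N = Nr 2 f`, `‖f_n‖ ≤ N`, so
`∑ ‖f_n‖^p ≤ N^(p-2) ∑ ‖f_n‖^2 = N^p` -/
theorem Nr_le_two {p : ℝ} (hp : 2 ≤ p) (f : A) : Nr p f ≤ Nr 2 f := by
  sorry

/-- (N2d) the same against the `ℓ^1` norm -/
theorem Nr_le_one {r : ℝ} (hr : 1 ≤ r) (f : A) : Nr r f ≤ Nr 1 f := by
  sorry

end DC8965.AT
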