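import Pool.Agent.Lib.MP_dc8965_an.AT.N1

open Finset
open scoped LaurentPolynomial

namespace DC8965.AT

/-! supports and dilations -/

lemma Sup.mono {f : A} {a b a' b' : ℤ} (h : Sup f a b) (ha : a' ≤ a) (hb : b ≤ b') :
    Sup f a' b' := by
  intro n hn
  exact h n (by omega)

theorem Sup.add {f g : A} {a b : ℤ} (hf : Sup f a b) (hg : Sup g a b) : Sup (f + g) a b := by
  sorry

theorem Sup.smul {f : A} {a b : ℤ} (c : ℂ) (hf : Sup f a b) : Sup (c • f) a b := by
  sorry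

theorem Sup.sub {f g : A} {a b : ℤ} (hf : Sup f a b) (hg : Sup g a b) : Sup (f - g) a b := by
  sorry

theorem Sup.sum {ι : Type*} {s : Finset ι} {f : ι → A} {a b : ℤ} (h : ∀ i ∈ s, Sup (f i) a b) :
    Sup (∑ i ∈ s, f i) a b := by
  sorry

theorem Sup.mul {f g : A} {a b c d : ℤ} (hf : Sup f a b) (hg : Sup g c d) :
    Sup (f * g) (a + c) (b + d) := by
  sorry

theorem Sup_one : Sup 1 0 0 := by
  sorry

/-- every element has bounded support -/
theorem exists_Sup (f : A) : ∃ R : ℤ, 0 < R ∧ Sup f (-R) R := by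
  sorry

/-- coefficients of `dil` -/
theorem dil_coeff_mul {M : ℤ} (hM : 0 < M) (f : A) (n : ℤ) : (dil M f).coeff (M * n) = f.coeff n := by
  sorry

theorem dil_coeff_of_not_dvd {M : ℤ} (f : A) {n : ℤ} (h : ¬ M ∣ n) : (dil M f).coeff n = 0 := by
  sorry

theorem Sup.dil {f : A} {a b M : ℤ} (hM : 0 < M) (hf : Sup f a b) : Sup (dil M f) (M * a) (M * b) := by
  sorry

theorem S_dil {r : ℝ} (hr : 0 < r) {M : ℤ} (hM : 0 < M) (f : A) : S r (dil M f) = S r f := by
  sorry

/-- (N3z) separated scales: the map `(a, b) ↦ a + M b` is injective on `[-R, R] × ℤ` when `2 R < M`. -/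
theorem S_mul_dil {r : ℝ} (hr : 0 < r) {f g : A} {R M : ℤ} (hf : Sup f (-R) R) (hM : 2 * R < M) :
    S r (f * dil M g) = S r f * S r g := by
  sorry

theorem Nr_mul_dil {r : ℝ} (hr : 0 < r) {f g : A} {R M : ℤ} (hf : Sup f (-R) R) (hM : 2 * R < M) :
    Nr r (f * dil M g) = Nr r f * Nr r g := by
  sorry

/-- disjoint supports -/
theorem S_add_of_disjoint {r : ℝ} (hr : 0 < r) {f g : A} (h : ∀ n, f.coeff n = 0 ∨ g.coeff n = 0) :
    S r (f + g) = S r f + S r g := by
  sorry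

end DC8965.AT
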