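import Pool.Agent.Lib.MP_dc8965_an.AT.N2
import Pool.Agent.Lib.MP_dc8965_an.AT.N3

open Finset
open scoped LaurentPolynomial

namespace DC8965.AT

theorem Op.mul {r : ℝ} {f g : A} {B C : ℝ} (hB : 0 ≤ B) (hf : Op r f B) (hg : Op r g C) :
    Op r (f * g) (B * C) := by
  intro h
  rw [mul_assoc f g h]
  calc Nr r (f * (g * h)) ≤ B * Nr r (g * h) := hf _
    _ ≤ B * (C * Nr r h) := mul_le_mul_of_nonneg_left (hg _) hB
    _ = B * C * Nr r h := by ring

theorem Op.add {r : ℝ} (hr : 1 ≤ r) {f g : A} {B C : ℝ} (hf : Op r f B) (hg : Op r g C) :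
    Op r (f + g) (B + C) := by
  intro h
  rw [add_mul]
  calc Nr r (f * h + g * h) ≤ Nr r (f * h) + Nr r (g * h) := Nr_add hr _ _
    _ ≤ B * Nr r h + C * Nr r h := add_le_add (hf h) (hg h)
    _ = (B + C) * Nr r h := by ring

theorem Op.mono {r : ℝ} {f : A} {B C : ℝ} (hf : Op r f B) (h : B ≤ C) : Op r f C :=
  fun g => (hf g).trans (mul_le_mul_of_nonneg_right h (Nr_nonneg _ _))

theorem Op.smul {r : ℝ} (hr : 0 < r) {f : A} {B : ℝ} (c : ℂ) (hf : Op r f B) :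
    Op r (c • f) (‖c‖ * B) := by
  intro g
  rw [smul_mul_assoc, Nr_smul hr, mul_assoc]
  exact mul_le_mul_of_nonneg_left (hf g) (norm_nonneg _)

theorem Op_zero {r : ℝ} (hr : 0 < r) : Op r 0 0 := by
  intro g
  rw [zero_mul, Nr_zero hr, zero_mul]

theorem Op_one {r : ℝ} : Op r 1 1 := by
  intro g
  rw [one_mul, one_mul]

theorem Op_of_Nr_one {r : ℝ} (hr : 1 ≤ r) (f : A) : Op r f (Nr 1 f) := fun g => Nr_mul_le hr f g

theorem Op.pow {r : ℝ} {f : A} {B : ℝ} (hB : 0 ≤ B) (hf : Op r f B) (n : ℕ) :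
    Op r (f ^ n) (B ^ n) := by
  induction n with
  | zero => simpa using (Op_one (r := r))
  | succ n ih => rw [pow_succ, pow_succ]; exact Op.mul (pow_nonneg hB n) ih hf

/-- (N4d) dilations do not change the operator norm: write `g = ∑_(0 ≤ ρ < M) T^ρ dil M g_ρ`
(`(g_ρ)_n = g_(M n + ρ)`); then `S r g = ∑ S r g_ρ` and `dil M f * g = ∑ T^ρ dil M (f g_ρ)`. -/
theorem Op.dil {r : ℝ} (hr : 0 < r) {f : A} {B : ℝ} (hB : 0 ≤ B) {M : ℤ} (hM : 0 < M)
    (hf : Op r f B) : Op r (dil M f) B := by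
  sorry

end DC8965.AT
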